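import Pool.Agent.H14.BR.Stm
import Pool.Agent.H46.RF.WRD

set_option autoImplicit false

namespace H43.BR

open ZFSet (pair)
open Pool.Agent.W868
open MeasureTheory H14.ES H46.RF H14.BR

/-- the lexicographically least element -/
theorem exists_lex (B : Set (ℕ → Bool)) (hB : B.Nonempty)
    (hcl : ∀ s, (∀ n, ∃ x ∈ B, ∀ i < n, x i = s i) → s ∈ B) :
    ∃ s ∈ B, ∀ k, s k = true → ∀ x ∈ B, (∀ i < k, x i = s i) → x k = true := by
  classical
  obtain ⟨b0, hb0⟩ := hB
  let step : ℕ → B → B := fun n x =>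
    if h : ∃ y ∈ B, (∀ i < n, y i = x.1 i) ∧ y n = false then ⟨h.choose, h.choose_spec.1⟩ else x
  have hstep : ∀ n x, ∀ i < n, (step n x).1 i = x.1 i := by
    intro n x i hi
    by_cases h : ∃ y ∈ B, (∀ i < n, y i = x.1 i) ∧ y n = false
    · simp only [step, dif_pos h]
      exact h.choose_spec.2.1 i hi
    · simp only [step, dif_neg h]
  let X : ℕ → B := fun n => Nat.rec ⟨b0, hb0⟩ (fun n x => step n x) n
  have hX : ∀ n, X (n + 1) = step n (X n) := fun n => rfl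
  have hagree : ∀ n m, n ≤ m → ∀ i < n, (X m).1 i = (X n).1 i := by
    intro n m h
    induction h with
    | refl => intro i _; rfl
    | @step m hm ih =>
      intro i hi
      rw [hX, hstep m (X m) i (lt_of_lt_of_le hi hm)]
      exact ih i hi
  have hs : ∀ m i, i < m → (X m).1 i = (X (i + 1)).1 i := fun m i hi =>
    hagree (i + 1) m hi i (Nat.lt_succ_self i)
  refine ⟨fun n => (X (n + 1)).1 n, hcl _ fun n => ⟨(X n).1, (X n).2, fun i hi => hs n i hi⟩, ?_⟩
  intro k hk x hx hxs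
  by_contra hc
  have hc' : x k = false := by simpa using hc
  have h : ∃ y ∈ B, (∀ i < k, y i = (X k).1 i) ∧ y k = false :=
    ⟨x, hx, fun i hi => by rw [hxs i hi, hs k i hi], hc'⟩
  have h2 : (X (k + 1)).1 k = false := by
    rw [hX]
    simp only [step, dif_pos h]
    exact h.choose_spec.2.2
  simp only at hk
  rw [h2] at hk
  exact absurd hk (by decide)

theorem closed_fin (N : ℕ) (S : Set (ℕ → Bool))
    (h : ∀ x y : ℕ → Bool, (∀ i < N, x i = y i) → x ∈ S → y ∈ S) : IsClosed S := by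
  set f : (ℕ → Bool) → (Fin N → Bool) := fun x i => x i with hf
  have hc : Continuous f := continuous_pi fun i => continuous_apply _
  have e : S = f ⁻¹' (f '' S) := by
    ext x
    constructor
    · intro hx; exact ⟨x, hx, rfl⟩
    · rintro ⟨y, hy, hyx⟩
      exact h y x (fun i hi => congrFun hyx ⟨i, hi⟩) hy
  rw [e]
  exact (isClosed_discrete _).preimage hc

theorem down' {T : ZFSet.{0}} (hT : IsTree T) (x : ℕ → Bool) (j k : ℕ) (h : ini x (j + k) ∈ T) :
    ini x j ∈ T := by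
  induction k with
  | zero => exact h
  | succ k ih => exact ih (hT.down x (j + k) h)

theorem konig {T : ZFSet.{0}} (hT : IsTree T) (r : ℕ → Bool) (n : ℕ)
    (h : ∀ m, n ≤ m → ∃ x, (∀ i < n, x i = r i) ∧ ini x m ∈ T) :
    ∃ x ∈ body T, ∀ i < n, x i = r i := by
  set K : ℕ → Set (ℕ → Bool) := fun m => {x | (∀ i < n, x i = r i) ∧ ini x (n + m) ∈ T} with hK
  have hcl : ∀ m, IsClosed (K m) := by
    intro m
    apply closed_fin (n + m)
    intro x y hxy hx
    refine ⟨fun i hi => ?_, ?_⟩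
    · rw [← hxy i (by omega)]; exact hx.1 i hi
    · have : ini y (n + m) = ini x (n + m) :=
        (ini_eq _ _ _ _).2 ⟨rfl, fun i hi => (hxy i hi).symm⟩
      rw [this]; exact hx.2
  obtain ⟨x, hx⟩ := IsCompact.nonempty_iInter_of_sequence_nonempty_isCompact_isClosed K
    (fun m x hx => ⟨hx.1, hT.down x (n + m) hx.2⟩)
    (fun m => (h (n + m) (Nat.le_add_right _ _)).imp fun x hx => hx)
    (hcl 0).isCompact hcl
  rw [Set.mem_iInter] at hx
  refine ⟨x, fun j => ?_, (hx 0).1⟩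
  exact down' hT x j n (by rw [add_comm]; exact (hx j).2)

theorem bz_false : bz false = nat 0 := by simp [bz]
theorem bz_true : bz true = nat 1 := by simp [bz]

theorem ko1 (hZ : S_ZRL) : S_KO1 := by
  intro M hM T hTM hT hne
  have hB := hM.base
  obtain ⟨Ln, hLn, hLn'⟩ := exists_Ln hM
  -- the words with extensions of every length
  have d1 : Dfn M M fun w : Fin 1 → ZFSet.{0} => ∀ m ∈ ZFSet.omega, ∃ y ∈ T,
      pair y m ∈ Ln ∧ (w 0 ⊆ y ∨ y ⊆ w 0) := by
    apply hB.ball (DfnF.const hM.infinity)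
    apply hB.bex (DfnF.const hTM)
    exact (Dfn.mem (hB.pair' (DfnF.proj 0) (DfnF.proj (1 : Fin 3))) (DfnF.const hLn)).and
      ((hB.subset' (DfnF.proj (2 : Fin 3)) (DfnF.proj 0)).or
        (hB.subset' (DfnF.proj 0) (DfnF.proj (2 : Fin 3))))
  have hEM := hM.sep_mem (Q := fun z => ∀ m ∈ ZFSet.omega, ∃ y ∈ T,
      pair y m ∈ Ln ∧ (z ⊆ y ∨ y ⊆ z)) d1 hTM
  set E : ZFSet.{0} := ZFSet.sep (fun z => ∀ m ∈ ZFSet.omega, ∃ y ∈ T,
      pair y m ∈ Ln ∧ (z ⊆ y ∨ y ⊆ z)) T with hE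
  have hE' : ∀ z, z ∈ E ↔ ∃ x ∈ body T, ∃ n, z = ini x n := by
    intro z
    rw [hE, ZFSet.mem_sep]
    constructor
    · rintro ⟨hz, h⟩
      obtain ⟨r, n, rfl⟩ := hT.word z hz
      obtain ⟨x, hx, hxr⟩ := konig hT r n (by
        intro m hm
        obtain ⟨y, hy, hym, hc⟩ := h (nat m) (mem_omega_iff.2 ⟨m, rfl⟩)
        obtain ⟨r', n', he⟩ := (hLn' _).1 hym
        obtain ⟨h1, h2⟩ := ZFSet.pair_inj.1 he
        obtain rfl := nat_injective h2
        subst h1
        refine ⟨r', ?_, hy⟩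
        rcases hc with hc | hc
        · intro i hi
          exact ((((ini_sub _ _ _ _).1 hc).2) i hi).symm
        · have h3 := (ini_sub _ _ _ _).1 hc
          intro i hi
          exact h3.2 i (by omega))
      exact ⟨x, hx, n, (ini_eq _ _ _ _).2 ⟨rfl, fun i hi => (hxr i hi).symm⟩⟩
    · rintro ⟨x, hx, n, rfl⟩
      refine ⟨hx n, ?_⟩
      intro m hm
      obtain ⟨m, rfl⟩ := mem_omega_iff.1 hm
      refine ⟨ini x m, hx m, (hLn' _).2 ⟨x, m, rfl⟩, ?_⟩
      rcases le_total n m with h | h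
      · exact Or.inl ((ini_sub _ _ _ _).2 ⟨h, fun _ _ => rfl⟩)
      · exact Or.inr ((ini_sub _ _ _ _).2 ⟨h, fun _ _ => rfl⟩)
  -- the leftmost branch
  have d2 : Dfn M M fun w : Fin 1 → ZFSet.{0} => ∀ y ∈ E, ∀ k ∈ ZFSet.omega,
      pair k (nat 0) ∈ y → pair k (nat 1) ∈ w 0 → ∃ p ∈ y, ¬ p ∈ w 0 ∧ ¬ p = pair k (nat 0) := by
    apply hB.ball (DfnF.const hEM)
    apply hB.ball (DfnF.const hM.infinity)
    refine (Dfn.mem (hB.pair' (DfnF.proj 0) (DfnF.const (hM.nat_mem 0))) (DfnF.proj (1 : Fin 3))).imp ?_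
    refine (Dfn.mem (hB.pair' (DfnF.proj 0) (DfnF.const (hM.nat_mem 1))) (DfnF.proj (2 : Fin 3))).imp ?_
    apply hB.bex (DfnF.proj (1 : Fin 3))
    exact (Dfn.mem (DfnF.proj 0) (DfnF.proj (3 : Fin 4))).not.and
      (Dfn.eq (DfnF.proj 0) (hB.pair' (DfnF.proj (1 : Fin 4)) (DfnF.const (hM.nat_mem 0)))).not
  have hLM := hM.sep_mem (Q := fun z => ∀ y ∈ E, ∀ k ∈ ZFSet.omega,
      pair k (nat 0) ∈ y → pair k (nat 1) ∈ z → ∃ p ∈ y, ¬ p ∈ z ∧ ¬ p = pair k (nat 0)) d2 hEM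
  obtain ⟨s, hs, hmin⟩ := exists_lex (body T) hne (by
    intro s h n
    obtain ⟨x, hx, hxs⟩ := h n
    have : ini s n = ini x n := (ini_eq _ _ _ _).2 ⟨rfl, fun i hi => (hxs i hi).symm⟩
    rw [this]; exact hx n)
  refine ⟨s, hs, (hZ.2.2 M hM).2.1 s _ hLM ?_⟩
  intro z
  rw [ZFSet.mem_sep]
  constructor
  · rintro ⟨hz, h⟩
    obtain ⟨x, hx, n, rfl⟩ := (hE' z).1 hz
    refine ⟨n, (ini_eq _ _ _ _).2 ⟨rfl, ?_⟩⟩
    intro i
    induction i using Nat.strong_induction_on with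
    | _ i ih =>
    intro hi
    have ih' : ∀ j < i, x j = s j := fun j hj => ih j hj (by omega)
    by_contra hne'
    cases hxi : x i
    · have hsi : s i = true := by
        cases hsi : s i
        · rw [hxi, hsi] at hne'; exact absurd rfl hne'
        · rfl
      have := hmin i hsi x hx ih'
      rw [hxi] at this
      exact absurd this (by decide)
    · have hsi : s i = false := by
        cases hsi : s i
        · rfl
        · rw [hxi, hsi] at hne'; exact absurd rfl hne'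
      obtain ⟨p, hp, hpz, hpk⟩ := h (ini s (i + 1)) ((hE' _).2 ⟨s, hs, i + 1, rfl⟩) (nat i)
        (mem_omega_iff.2 ⟨i, rfl⟩) ((pair_mem_ini _ _ _ _).2 ⟨Nat.lt_succ_self i, by
          rw [hsi, bz_false]⟩) ((pair_mem_ini _ _ _ _).2 ⟨hi, by rw [hxi, bz_true]⟩)
      obtain ⟨j, hj, rfl⟩ := (mem_ini _ _ _).1 hp
      rcases Nat.lt_succ_iff_lt_or_eq.1 hj with hj' | rfl
      · exact hpz ((pair_mem_ini _ _ _ _).2 ⟨by omega, by rw [ih' j hj']⟩)
      · exact hpk (by rw [hsi, bz_false])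
  · rintro ⟨n, rfl⟩
    refine ⟨(hE' _).2 ⟨s, hs, n, rfl⟩, ?_⟩
    intro y hy k hk h0 h1
    obtain ⟨x, hx, m, rfl⟩ := (hE' y).1 hy
    obtain ⟨k, rfl⟩ := mem_omega_iff.1 hk
    obtain ⟨hkm, h0'⟩ := (pair_mem_ini _ _ _ _).1 h0
    obtain ⟨hkn, h1'⟩ := (pair_mem_ini _ _ _ _).1 h1
    have hxk : x k = false := bz_inj (by rw [← h0', bz_false])
    have hsk : s k = true := bz_inj (by rw [← h1', bz_true])
    have hex : ∃ i < k, x i ≠ s i := by
      by_contra hc
      push Not at hc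
      have := hmin k hsk x hx hc
      rw [hxk] at this
      exact absurd this (by decide)
    obtain ⟨i, hik, hi⟩ := hex
    refine ⟨pair (nat i) (bz (x i)), (pair_mem_ini _ _ _ _).2 ⟨by omega, rfl⟩, ?_, ?_⟩
    · intro hc
      exact hi (bz_inj ((pair_mem_ini _ _ _ _).1 hc).2)
    · intro hc
      have := nat_injective (ZFSet.pair_inj.1 hc).1
      omega

end H43.BR
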